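import Mathlib
import Pool.Agent.NoIid.Defs
import Pool.Agent.NoIid.Final

/-!
There is a nontrivial finitary factor of an i.i.d. process which has no nontrivial i.i.d.
process as a finitary factor.
-/

open MeasureTheory

namespace Pool.Agent.Results.MP_a0cf29_an.NoIidFactor

open Pool.Agent.NoIid

/-- There is a nontrivial `{0,1}`-valued process which is a finitary factor of an i.i.d. process
and such that no nontrivial i.i.d. process (on any finite alphabet) is a finitary factor of it. -/
theorem result : ∃ ν : Measure (ℤ → Bool), IsProcess ν ∧ ¬ IsTrivialProcess ν ∧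
    (∃ p : Measure (Bool × Bool), IsProbabilityMeasure p ∧ IsFinitaryFactor (iid p) ν) ∧
    ∀ (B : Type) [Finite B] [MeasurableSpace B] [MeasurableSingletonClass B] (p : Measure B)
      [IsProbabilityMeasure p], ¬ IsTrivialProcess (iid p) → ¬ IsFinitaryFactor ν (iid p) := by
  obtain ⟨F, hF⟩ := exists_enum
  refine ⟨nu sq F, nu_process sq_growth, nu_nontrivial sq_growth,
    ⟨coin2, inferInstance, Ymap sq F, factor_map sq_growth⟩, ?_⟩
  intro B _ _ _ p _ hp
  exact not_iid_factor sq_growth hF p hp

end Pool.Agent.Results.MP_a0cf29_an.NoIidFactor
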